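import Pool.Agent.Q215.SAW.Z3Lim
import Pool.Agent.Q215.SAW.Avg

/-!
Self-avoiding walks on `ℤ³`: the asymptotic formula `c_n ~ A μⁿ n^(γ-1)` holds if and only if it
holds on average over every window of `δ √n` lengths of the same parity, for every `δ > 0`; in
particular it follows from the corresponding formula with the remainder `o(√n)` for the sums over
the lengths up to `n`.
-/

set_option autoImplicit false

namespace Pool.Agent.Results.MP_794e6e_pr.Averages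

open Filter Topology

/-- `C n` is the number of `n`-step self-avoiding nearest-neighbour walks on `ℤ³` from `0`. -/
noncomputable def C (n : ℕ) : ℕ :=
  Nat.card {ω : Fin (n + 1) → (Fin 3 → ℤ) //
    ω 0 = 0 ∧ Function.Injective ω ∧
    ∀ i : Fin n, ∑ j : Fin 3, |ω i.succ j - ω i.castSucc j| = 1}

/-- The quotient `c_n / (μⁿ n^(γ-1))` of the problem. -/
noncomputable def F (μ γ : ℝ) (n : ℕ) : ℝ := (C n : ℝ) / (μ ^ n * (n : ℝ) ^ (γ - 1))

/-- the number of lengths in the window at `m`: `⌊δ √m⌋ + 1` -/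
noncomputable def W (δ : ℝ) (m : ℕ) : ℕ := ⌊δ * √(m : ℝ)⌋₊ + 1

/-- **Theorem.** On `ℤ³` let `μ` be the limit of `c_n^(1/n)`. Let `γ` be real, `e` a natural number
(the parity), `A > 0` and `F n = c_n / (μⁿ n^(γ-1))`.

(1) `F (2 m + e) → A` as `m → ∞` if and only if for every `δ > 0` the average of the numbers
`F (2 k + e)`, `m ≤ k ≤ m + δ √m`, tends to `A`.

(2) If `∑_{k < m} F (2 k + e) = A m + o(√m)`, then `F (2 m + e) → A`. -/
theorem result : ∃ μ : ℝ, 0 < μ ∧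
    Tendsto (fun n : ℕ => (C n : ℝ) ^ (1 / (n : ℝ))) atTop (𝓝 μ) ∧
    ∀ (γ : ℝ) (e : ℕ) (A : ℝ), 0 < A →
      (Tendsto (fun m : ℕ => F μ γ (2 * m + e)) atTop (𝓝 A) ↔
        ∀ δ : ℝ, 0 < δ → Tendsto (fun m : ℕ =>
          (∑ i ∈ Finset.range (W δ m), F μ γ (2 * (m + i) + e)) / W δ m) atTop (𝓝 A)) ∧
      (Tendsto (fun m : ℕ => (∑ i ∈ Finset.range m, F μ γ (2 * i + e) - A * m) / √(m : ℝ)) atTop
          (𝓝 0) →
        Tendsto (fun m : ℕ => F μ γ (2 * m + e)) atTop (𝓝 A)) := by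
  refine ⟨TH966.KO.μ, Q219.SAW.Z3.mu_pos, ?_, ?_⟩
  · refine TH966.KO.tend.congr fun n => ?_
    have h : C n = TH966.KO.c n := Q219.SAW.Z3.C_eq n
    rw [h]
  intro γ e A hA
  have hF : ∀ m, F TH966.KO.μ γ (2 * m + e) = Q215.SAW.Z3.F e γ m := fun _ => rfl
  have hW : ∀ δ m, W δ m = Q215.SAW.Cvx.wd δ m := fun _ _ => rfl
  simp only [hF, hW]
  obtain ⟨D, k0, hD, h⟩ := Q215.SAW.Z3.xF_ac e γ
  have hG : ∀ k, 1 ≤ k → Q215.SAW.Z3.F e γ k = Real.exp (Q215.SAW.Z3.xF e γ k) :=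
    fun k hk => Q215.SAW.Z3.F_exp e γ hk
  have hG0 : ∀ k, 0 ≤ Q215.SAW.Z3.F e γ k := by
    intro k
    unfold Q215.SAW.Z3.F
    have := Q219.SAW.Z3.mu_pos
    positivity
  have key : (∀ δ : ℝ, 0 < δ → Tendsto (fun m => (∑ i ∈ Finset.range (Q215.SAW.Cvx.wd δ m),
      Q215.SAW.Z3.F e γ (m + i)) / Q215.SAW.Cvx.wd δ m) atTop (𝓝 A)) →
      Tendsto (fun m => Q215.SAW.Z3.F e γ m) atTop (𝓝 A) :=
    fun h1 => Q215.SAW.Cvx.avg_lim h hD hG hG0 hA h1
  exact ⟨⟨fun h1 δ _ => Q215.SAW.Cvx.avg_conv h1 δ, key⟩,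
    fun h1 => key fun δ hδ => Q215.SAW.Cvx.avg_sum h1 hδ⟩

end Pool.Agent.Results.MP_794e6e_pr.Averages
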