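import Pool.Agent.Q219.SAW.Z3

/-!
Self-avoiding walks on `ℤ³`: the ratio `c_{n+2}/c_n` converges to `μ²` with a power rate, and the
asymptotic formula `c_n ~ A μⁿ n^(γ-1)` along a sparse sequence of lengths implies the formula
along all lengths of the same parity.
-/

set_option autoImplicit false

namespace Pool.Agent.Results.MP_794e6e_pr.RatioAndSparse

open Filter Topology

/-- `C n` is the number of `n`-step self-avoiding nearest-neighbour walks on `ℤ³` from `0`. -/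
noncomputable def C (n : ℕ) : ℕ :=
  Nat.card {ω : Fin (n + 1) → (Fin 3 → ℤ) //
    ω 0 = 0 ∧ Function.Injective ω ∧
    ∀ i : Fin n, ∑ j : Fin 3, |ω i.succ j - ω i.castSucc j| = 1}

/-- **Theorem.** On `ℤ³` let `μ` be the limit of `c_n^(1/n)`.
(1) For every `ε > 0` there is `K` with
`- K n^(-1/3+ε) ≤ c_{n+2}/c_n - μ² ≤ K n^(-2/5+ε)` for all `n ≥ 1`.
(2) Let `0 < ε < 2/5`, let `s_k → ∞` be natural numbers with `(s_{k+1} - s_k) s_k^(-2/5+ε) → 0`,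
let `e` be a natural number, `A > 0` and `γ` real. If `c_n / (μⁿ n^(γ-1)) → A` along the lengths
`n = 2 s_k + e`, then `c_n / (μⁿ n^(γ-1)) → A` along all lengths `n = 2m + e`, `m → ∞`. -/
theorem result : ∃ μ : ℝ, 0 < μ ∧
    Tendsto (fun n : ℕ => (C n : ℝ) ^ (1 / (n : ℝ))) atTop (𝓝 μ) ∧
    (∀ ε : ℝ, 0 < ε → ∃ K : ℝ, ∀ n : ℕ, 1 ≤ n →
      -(K * (n : ℝ) ^ (-(1 / 3 : ℝ) + ε)) ≤ (C (n + 2) : ℝ) / C n - μ ^ 2 ∧
        (C (n + 2) : ℝ) / C n - μ ^ 2 ≤ K * (n : ℝ) ^ (-(2 / 5 : ℝ) + ε)) ∧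
    (∀ ε : ℝ, 0 < ε → ε < 2 / 5 → ∀ (s : ℕ → ℕ) (e : ℕ) (A γ : ℝ), 0 < A →
      Tendsto s atTop atTop →
      Tendsto (fun k => ((s (k + 1) : ℝ) - s k) * (s k : ℝ) ^ (-(2 / 5 : ℝ) + ε)) atTop (𝓝 0) →
      Tendsto (fun k => (C (2 * s k + e) : ℝ) /
        (μ ^ (2 * s k + e) * ((2 * s k + e : ℕ) : ℝ) ^ (γ - 1))) atTop (𝓝 A) →
      Tendsto (fun m : ℕ => (C (2 * m + e) : ℝ) /
        (μ ^ (2 * m + e) * ((2 * m + e : ℕ) : ℝ) ^ (γ - 1))) atTop (𝓝 A)) := by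
  refine ⟨TH966.KO.μ, Q219.SAW.Z3.mu_pos, ?_, fun ε hε => Q219.SAW.Z3.rates_all ε hε,
    fun ε hε hε3 s e A γ hA hs hgap h => Q219.SAW.Z3.sparse hε hε3 hA hs hgap h⟩
  refine TH966.KO.tend.congr fun n => ?_
  have h : C n = TH966.KO.c n := Q219.SAW.Z3.C_eq n
  rw [h]

end Pool.Agent.Results.MP_794e6e_pr.RatioAndSparse
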