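import Pool.Agent.Q215.SAW.Z3Lim

/-!
Self-avoiding walks on `ℤ³`: the asymptotic formula `c_n ~ A μⁿ n^(γ-1)`, and upper and lower bounds
of this form, have to be checked only along sequences of lengths with gaps `o(√n)`; the order of
magnitude `μⁿ n^(γ-1)` only along sequences with gaps `O(√n)`, for instance the perfect squares.
-/

set_option autoImplicit false

namespace Pool.Agent.Results.MP_794e6e_pr.RootGaps

open Filter Topology

/-- `C n` is the number of `n`-step self-avoiding nearest-neighbour walks on `ℤ³` from `0`. -/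
noncomputable def C (n : ℕ) : ℕ :=
  Nat.card {ω : Fin (n + 1) → (Fin 3 → ℤ) //
    ω 0 = 0 ∧ Function.Injective ω ∧
    ∀ i : Fin n, ∑ j : Fin 3, |ω i.succ j - ω i.castSucc j| = 1}

/-- The quotient `c_n / (μⁿ n^(γ-1))` of the problem. -/
noncomputable def F (μ γ : ℝ) (n : ℕ) : ℝ := (C n : ℝ) / (μ ^ n * (n : ℝ) ^ (γ - 1))

/-- `t j → ∞` and `t (j+1) - t j = o(√(t j))` -/
def Small (t : ℕ → ℕ) : Prop :=
  Tendsto t atTop atTop ∧ Tendsto (fun j => ((t (j + 1) : ℝ) - t j) / √(t j)) atTop (𝓝 0)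

/-- `t j → ∞` and `t (j+1) - t j ≤ η √(t j)` for all large `j`, for some `η` -/
def Root (t : ℕ → ℕ) : Prop :=
  Tendsto t atTop atTop ∧ ∃ η : ℝ, ∀ᶠ j in atTop, (t (j + 1) : ℝ) - t j ≤ η * √(t j)

/-- The perfect squares have gaps of order `√n`. -/
theorem squares : Root (fun j => (j + 1) ^ 2) := by
  refine ⟨?_, 3, Eventually.of_forall fun j => ?_⟩
  · refine tendsto_atTop_mono (fun j => ?_) tendsto_id
    simp only [id]
    nlinarith
  · have e : √(((j + 1) ^ 2 : ℕ) : ℝ) = j + 1 := by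
      push_cast
      exact Real.sqrt_sq (by positivity)
    rw [e]
    push_cast
    have : (0 : ℝ) ≤ j := Nat.cast_nonneg _
    nlinarith

/-- **Theorem.** On `ℤ³` let `μ` be the limit of `c_n^(1/n)`. Let `γ` be real and `e` a natural
number (the parity), and let `F n = c_n / (μⁿ n^(γ-1))`.

(1) If the gaps of `t` are `o(√t)` and `F ≤ b` at all but finitely many of the lengths `2 t_j + e`,
then for every `ε > 0` `F ≤ b + ε` at all but finitely many of the lengths `2 m + e`.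

(2) Let `F` be bounded above along the lengths `2 m + e`. If the gaps of `t` are `o(√t)` and
`F ≥ a > 0` at all but finitely many of the lengths `2 t_j + e`, then for every `ε > 0` `F ≥ a - ε`
at all but finitely many of the lengths `2 m + e`.

(3) If the gaps of `t` are `o(√t)`, `A > 0` and `F → A` along the lengths `2 t_j + e`, then `F → A`
along the lengths `2 m + e`.

(4) The gaps of the perfect squares are `O(√t)`. If the gaps of `t` are `O(√t)` and
`a ≤ F ≤ b` at all but finitely many of the lengths `2 t_j + e`, where `a > 0`, then there are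
`a' > 0` and `b'` with `a' ≤ F ≤ b'` at all but finitely many of the lengths `2 m + e`. -/
theorem result : Root (fun j => (j + 1) ^ 2) ∧ ∃ μ : ℝ, 0 < μ ∧
    Tendsto (fun n : ℕ => (C n : ℝ) ^ (1 / (n : ℝ))) atTop (𝓝 μ) ∧
    ∀ (γ : ℝ) (e : ℕ),
    (∀ (t : ℕ → ℕ) (b : ℝ), Small t → (∀ᶠ j in atTop, F μ γ (2 * t j + e) ≤ b) →
      ∀ ε : ℝ, 0 < ε → ∀ᶠ m in atTop, F μ γ (2 * m + e) ≤ b + ε) ∧
    (∀ (t : ℕ → ℕ) (a B : ℝ), Small t → 0 < a → (∀ᶠ m in atTop, F μ γ (2 * m + e) ≤ B) →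
      (∀ᶠ j in atTop, a ≤ F μ γ (2 * t j + e)) →
      ∀ ε : ℝ, 0 < ε → ∀ᶠ m in atTop, a - ε ≤ F μ γ (2 * m + e)) ∧
    (∀ (t : ℕ → ℕ) (A : ℝ), Small t → 0 < A →
      Tendsto (fun j => F μ γ (2 * t j + e)) atTop (𝓝 A) →
      Tendsto (fun m => F μ γ (2 * m + e)) atTop (𝓝 A)) ∧
    ∀ (t : ℕ → ℕ) (a b : ℝ), Root t → 0 < a →
      (∀ᶠ j in atTop, a ≤ F μ γ (2 * t j + e) ∧ F μ γ (2 * t j + e) ≤ b) →
      ∃ a' b' : ℝ, 0 < a' ∧
        ∀ᶠ m in atTop, a' ≤ F μ γ (2 * m + e) ∧ F μ γ (2 * m + e) ≤ b' := by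
  refine ⟨squares, TH966.KO.μ, Q219.SAW.Z3.mu_pos, ?_, ?_⟩
  · refine TH966.KO.tend.congr fun n => ?_
    have h : C n = TH966.KO.c n := Q219.SAW.Z3.C_eq n
    rw [h]
  intro γ e
  have hF : ∀ m, F TH966.KO.μ γ (2 * m + e) = Q215.SAW.Z3.F e γ m := fun _ => rfl
  simp only [hF]
  refine ⟨?_, ?_, ?_, ?_⟩
  · rintro t b ⟨ht, hs⟩ hb ε hε
    exact Q215.SAW.Z3.F_up ht hs hb hε
  · rintro t a B ⟨ht, hs⟩ ha0 hB ha ε hε
    exact Q215.SAW.Z3.F_low ht hs hB ha0 ha hε
  · rintro t A ⟨ht, hs⟩ hA h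
    have hup : ∀ ε : ℝ, 0 < ε → ∀ᶠ m in atTop, Q215.SAW.Z3.F e γ m ≤ A + ε := by
      intro ε hε
      have h1 := Q215.SAW.Z3.F_up ht hs (b := A + ε / 2)
        (h.eventually_le_const (by linarith)) (show 0 < ε / 2 by positivity)
      filter_upwards [h1] with m hm
      linarith
    rw [Metric.tendsto_nhds]
    intro ε hε
    obtain ⟨δ, hδ⟩ : ∃ δ : ℝ, δ = min (A / 2) (ε / 4) := ⟨_, rfl⟩
    have hδ0 : 0 < δ := by rw [hδ]; exact lt_min (by positivity) (by positivity)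
    have hδ1 : δ ≤ A / 2 := by rw [hδ]; exact min_le_left _ _
    have hδ2 : δ ≤ ε / 4 := by rw [hδ]; exact min_le_right _ _
    have h2 := Q215.SAW.Z3.F_low ht hs (hup 1 one_pos) (a := A - δ) (by linarith)
      (h.eventually_const_le (by linarith)) (show 0 < ε / 4 by positivity)
    filter_upwards [hup (ε / 2) (by positivity), h2] with m h3 h4
    rw [Real.dist_eq, abs_lt]
    constructor <;> linarith
  · rintro t a b ⟨ht, η, hη⟩ ha hab
    have hη' : ∀ᶠ j in atTop, (t (j + 1) : ℝ) - t j ≤ |η| * √(t j) := by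
      filter_upwards [hη] with j hj
      exact hj.trans (mul_le_mul_of_nonneg_right (le_abs_self _) (Real.sqrt_nonneg _))
    obtain ⟨b', hb'⟩ := Q215.SAW.Z3.F_bdd ht (abs_nonneg η) hη' (hab.mono fun j h => h.2)
    obtain ⟨a', ha', h⟩ := Q215.SAW.Z3.F_two ht (abs_nonneg η) hη' hb' ha
      (hab.mono fun j h => h.1)
    exact ⟨a', b', ha', h.and hb'⟩

end Pool.Agent.Results.MP_794e6e_pr.RootGaps
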