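import Pool.Agent.Q215.SAW.TvR

/-!
Self-avoiding walks on `ℤ³`: the second differences `E_k = log (c_k c_{k+4} / c_{k+2}²)` of
`log c_k` are `O(1 / n)` on average over every stretch of `n^(2/3+ε)` lengths near `n`; if
`c_n ≤ μⁿ n^b` along one sparse sequence of lengths, then over every stretch of `√(n log n)`
lengths.
-/

set_option autoImplicit false

namespace Pool.Agent.Results.MP_794e6e_pr.SecondDifferences

open Filter Topology

/-- `C n` is the number of `n`-step self-avoiding nearest-neighbour walks on `ℤ³` from `0`. -/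
noncomputable def C (n : ℕ) : ℕ :=
  Nat.card {ω : Fin (n + 1) → (Fin 3 → ℤ) //
    ω 0 = 0 ∧ Function.Injective ω ∧
    ∀ i : Fin n, ∑ j : Fin 3, |ω i.succ j - ω i.castSucc j| = 1}

/-- the second difference `log (c_k c_{k+4} / c_{k+2}²)` of the logarithms -/
noncomputable def E (k : ℕ) : ℝ :=
  Real.log ((C k : ℝ) * C (k + 4) / (C (k + 2) : ℝ) ^ 2)

theorem E_eq {μ : ℝ} (hμ : 0 < μ) (hC : ∀ n, (0 : ℝ) < C n) (k : ℕ) :
    E k = Q215.SAW.dd (fun n => Real.log ((C n : ℝ) / μ ^ n)) 2 k := by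
  unfold E Q215.SAW.dd
  have e : ∀ n, Real.log ((C n : ℝ) / μ ^ n) = Real.log (C n : ℝ) - n * Real.log μ := by
    intro n
    rw [Real.log_div (hC n).ne' (by positivity), Real.log_pow]
  simp only [e]
  rw [Real.log_div (mul_pos (hC _) (hC _)).ne' (pow_pos (hC _) 2).ne',
    Real.log_mul (hC _).ne' (hC _).ne', Real.log_pow]
  push_cast
  ring_nf

/-- **Theorem.** Let `E_k = log (c_k c_{k+4} / c_{k+2}²)` and let `μ` be the limit of `c_n^(1/n)`.

(1) Let `0 < ε < 1/3`. There is `K > 0` such that for all `n ≥ 2`: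
`∑_{n ≤ k < n+w} |E_k| ≤ K (w / n + n^(-1/3+ε))` for all `w`;
`∑_{n ≤ k < n+w} |E_k| ≤ 2 K w / n` for all `w ≥ n^(2/3+ε)`; and for every `T > 0`,
`|E_k| > T / n` for at most `2 K n / T` of the `k` with `n ≤ k < 2 n`.

(2) If for some `b` and some sequence of lengths `t_j → ∞` with
`t_{j+1} - t_j = o(√(t_j log t_j))` one has `c_n ≤ μⁿ n^b` for all but finitely many `n = t_j`, then
there is `K > 0` with `∑_{n ≤ k < n+w} |E_k| ≤ K (w / n + √(log n / n))` for all `n ≥ 2` and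
all `w`. -/
theorem result :
    (∀ ε : ℝ, 0 < ε → ε < 1 / 3 → ∃ K : ℝ, 0 < K ∧ ∀ n : ℕ, 2 ≤ n →
      (∀ w : ℕ, ∑ k ∈ Finset.range w, |E (n + k)| ≤
        K * (w / n + (n : ℝ) ^ (-(1 / 3 : ℝ) + ε))) ∧
      (∀ w : ℕ, (n : ℝ) ^ (2 / 3 + ε) ≤ w →
        ∑ k ∈ Finset.range w, |E (n + k)| ≤ 2 * K * (w / n)) ∧
      (∀ T : ℝ, 0 < T →
        (((Finset.range n).filter (fun k => T / n < |E (n + k)|)).card : ℝ) ≤
          2 * K * (n / T))) ∧
    ∃ μ : ℝ, 0 < μ ∧ Tendsto (fun n : ℕ => (C n : ℝ) ^ (1 / (n : ℝ))) atTop (𝓝 μ) ∧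
      ∀ (t : ℕ → ℕ) (b : ℝ), Tendsto t atTop atTop →
        Tendsto (fun j => ((t (j + 1) : ℝ) - t j) / √(t j * Real.log (t j))) atTop (𝓝 0) →
        (∀ᶠ j in atTop, (C (t j) : ℝ) ≤ μ ^ t j * (t j : ℝ) ^ b) →
        ∃ K : ℝ, 0 < K ∧ ∀ n w : ℕ, 2 ≤ n →
          ∑ k ∈ Finset.range w, |E (n + k)| ≤ K * (w / n + √(Real.log n / n)) := by
  constructor
  · intro ε hε hε1
    obtain ⟨K, hK, hd⟩ := Q215.SAW.Z3.tv3 hε hε1
    have h1 : ∀ n w : ℕ, 2 ≤ n → ∑ k ∈ Finset.range w, |E (n + k)| ≤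
        K * (w / n + (n : ℝ) ^ (-(1 / 3 : ℝ) + ε)) := by
      intro n w hn
      simp only [E_eq Q219.SAW.Z3.mu_pos Q219.SAW.Z3.C_pos]
      exact hd n w hn
    refine ⟨K, hK, fun n hn => ⟨fun w => h1 n w hn, fun w hw => ?_, fun T hT => ?_⟩⟩
    · have hn0 : (0 : ℝ) < n := by exact_mod_cast (show 0 < n by omega)
      refine (h1 n w hn).trans ?_
      have h2 : (n : ℝ) ^ (-(1 / 3 : ℝ) + ε) ≤ w / n := by
        rw [le_div_iff₀ hn0]
        have e : (n : ℝ) ^ (-(1 / 3 : ℝ) + ε) * n = (n : ℝ) ^ (2 / 3 + ε) := by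
          nth_rewrite 2 [← Real.rpow_one (n : ℝ)]
          rw [← Real.rpow_add hn0]
          congr 1
          ring
        rw [e]
        exact hw
      nlinarith
    · have hn0 : (0 : ℝ) < n := by exact_mod_cast (show 0 < n by omega)
      have h2 := h1 n n hn
      have h3 : (n : ℝ) ^ (-(1 / 3 : ℝ) + ε) ≤ 1 :=
        Real.rpow_le_one_of_one_le_of_nonpos (by exact_mod_cast (show 1 ≤ n by omega))
          (by linarith)
      have h4 : (((Finset.range n).filter (fun k => T / n < |E (n + k)|)).card : ℝ) *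
          (T / n) ≤ ∑ k ∈ Finset.range n, |E (n + k)| := by
        rw [← nsmul_eq_mul, ← Finset.sum_const]
        refine (Finset.sum_le_sum fun k hk => ?_).trans
          (Finset.sum_le_sum_of_subset_of_nonneg (Finset.filter_subset _ _)
            fun _ _ _ => abs_nonneg _)
        rw [Finset.mem_filter] at hk
        exact hk.2.le
      rw [div_self hn0.ne'] at h2
      have h5 : (((Finset.range n).filter (fun k => T / n < |E (n + k)|)).card : ℝ) *
          (T / n) ≤ 2 * K := h4.trans (h2.trans (by nlinarith))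
      rw [mul_div_assoc', le_div_iff₀ hT]
      rw [mul_div_assoc', div_le_iff₀ hn0] at h5
      exact h5
  · obtain ⟨μ, hμ, hroot, hC, hlow, S⟩ := Q215.SAW.D23.facts 3 (Or.inr rfl)
    refine ⟨μ, hμ, hroot, ?_⟩
    intro t b ht hsp hb
    have hb' : ∀ ε : ℝ, 0 < ε → ∀ᶠ j in atTop,
        Real.log ((Q215.SAW.D23.C 3 (t j) : ℝ) / μ ^ t j) ≤ (b + ε) * Real.log (t j) := by
      intro ε hε
      filter_upwards [hb, ht.eventually_ge_atTop 2] with j h1 h2
      have h3 : (0 : ℝ) < t j := by exact_mod_cast (show 0 < t j by omega)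
      have h4 : 0 ≤ Real.log (t j : ℝ) := Real.log_natCast_nonneg _
      have h5 : (Q215.SAW.D23.C 3 (t j) : ℝ) / μ ^ t j ≤ (t j : ℝ) ^ b := by
        rw [div_le_iff₀ (pow_pos hμ _), mul_comm]
        exact h1
      have h6 := Real.log_le_log (div_pos (hC _) (pow_pos hμ _)) h5
      rw [Real.log_rpow h3] at h6
      nlinarith
    have h1 := S.up ht hsp hb' one_pos
    obtain ⟨K, hK, h2⟩ := Q215.SAW.ser_poly S (B := b + 1) (by
      filter_upwards [h1] with n hn
      rw [abs_of_nonneg]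
      · exact hn
      · refine Real.log_nonneg ?_
        rw [one_le_div (pow_pos hμ n)]
        exact hlow n)
    refine ⟨K, hK, fun n w hn => ?_⟩
    have hC' : ∀ n, (0 : ℝ) < C n := hC
    simp only [E_eq hμ hC']
    exact h2 n w hn

end Pool.Agent.Results.MP_794e6e_pr.SecondDifferences
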